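import Pool.Agent.H548R2.Post.Main

set_option autoImplicit false

/-!
The construction of `Pool.Agent.H548R2.Post` with an action of a locally finite group on the Cantor
space in place of the translations by a family of sets. The proofs are adapted from there.
-/

namespace Pool.Agent.H869R3.LF

open Encodable Pool.Agent.Helper227
open Pool.Agent.H548R2.Post (hlt En res jn ext mX pX pJ enB cl resB goodB actB stepB tabB En_iff_res
  res_le_of_hlt mem_WE_iff En_mono exists_hlt_iff)
open Nat.Partrec (Code)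

/-- `T 0, T 1, ...` are maps of the Cantor space into itself, `T 0` is the identity, `m` is a
multiplication of the indices, and for each `n` the maps `T k`, `k < c n`, form a finite group. -/
structure IsAct (m : ℕ → ℕ → ℕ) (c : ℕ → ℕ) (T : ℕ → (ℕ → Bool) → ℕ → Bool) : Prop where
  comp : ∀ j k X, T j (T k X) = T (m j k) X
  one : ∀ X, T 0 X = X
  pos : ∀ n, 0 < c n
  mono : ∀ n n', n ≤ n' → c n ≤ c n'
  unb : ∀ k, ∃ n, k < c n
  mul_lt : ∀ n j k, j < c n → k < c n → m j k < c n
  inv : ∀ n j, j < c n → ∃ i < c n, ∀ X, T i (T j X) = X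

variable {m : ℕ → ℕ → ℕ} {c : ℕ → ℕ}

/-- the bound for the elements of the `n`-th requirement -/
def gb (c : ℕ → ℕ) (n : ℕ) : ℕ := n + ∑ i ∈ Finset.range n, c i

theorem gb_mono {n n' : ℕ} (h : n ≤ n') : gb c n ≤ gb c n' := by
  unfold gb
  have := Finset.sum_le_sum_of_subset (f := c) (Finset.range_subset_range.2 h)
  omega

/-- `z` may be put into the set at stage `s` for the sake of the `n`-th requirement. -/
def Good (c : ℕ → ℕ) (T : ℕ → (ℕ → Bool) → ℕ → Bool) (a : (ℕ → Bool) → List ℕ) (s n : ℕ)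
    (X : ℕ → Bool) (z : ℕ) : Prop :=
  gb c n ≤ z ∧ (∀ e < n, ∀ k < c n, res s e (jn (T k X) (a (T k X))) ≤ z) ∧
    ∃ k < c n, En s n z (T k X) ∧ ∀ y ∈ a (T k X), ¬ En s n y (T k X)

open Classical in
/-- The element put in at stage `s` for the `n`-th requirement. -/
noncomputable def act (c : ℕ → ℕ) (T : ℕ → (ℕ → Bool) → ℕ → Bool) (a : (ℕ → Bool) → List ℕ)
    (s n : ℕ) (X : ℕ → Bool) : Option ℕ :=
  (List.range s).find? (fun z => decide (Good c T a s n X z))

/-- The elements put in before stage `s`. -/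
noncomputable def A (c : ℕ → ℕ) (T : ℕ → (ℕ → Bool) → ℕ → Bool) : ℕ → (ℕ → Bool) → List ℕ
  | 0, _ => []
  | s + 1, X => A c T s X ++ (List.range s).filterMap (fun n => act c T (A c T s) s n X)

open Classical in
/-- The operator: the join of `X` with the set of all elements put in. -/
noncomputable def WB (c : ℕ → ℕ) (T : ℕ → (ℕ → Bool) → ℕ → Bool) (X : ℕ → Bool) : ℕ → Bool :=
  fun m => if m % 2 = 0 then X (m / 2) else decide (∃ s, m / 2 ∈ A c T s X)

theorem sh_zero {T : ℕ → (ℕ → Bool) → ℕ → Bool} (hT : IsAct m c T) (X : ℕ → Bool) : T 0 X = X :=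
  hT.one X

theorem mem_A_succ {T : ℕ → (ℕ → Bool) → ℕ → Bool} {s : ℕ} {X : ℕ → Bool} {z : ℕ} :
    z ∈ A c T (s + 1) X ↔ z ∈ A c T s X ∨ ∃ n < s, act c T (A c T s) s n X = some z := by
  change z ∈ A c T s X ++ (List.range s).filterMap (fun n => act c T (A c T s) s n X) ↔ _
  rw [List.mem_append, List.mem_filterMap]
  constructor
  · rintro (h | ⟨n, hn, h⟩)
    · exact Or.inl h
    · exact Or.inr ⟨n, List.mem_range.1 hn, h⟩
  · rintro (h | ⟨n, hn, h⟩)
    · exact Or.inl h
    · exact Or.inr ⟨n, List.mem_range.2 hn, h⟩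

theorem A_mono {T : ℕ → (ℕ → Bool) → ℕ → Bool} {s s' : ℕ} (h : s ≤ s') {X : ℕ → Bool} {z : ℕ}
    (hz : z ∈ A c T s X) : z ∈ A c T s' X := by
  induction h with
  | refl => exact hz
  | step _ ih => exact mem_A_succ.2 (Or.inl ih)

theorem act_spec {T : ℕ → (ℕ → Bool) → ℕ → Bool} {a : (ℕ → Bool) → List ℕ} {s n : ℕ} {X : ℕ → Bool} {z : ℕ}
    (h : act c T a s n X = some z) : z < s ∧ Good c T a s n X z := by
  classical
  unfold act at h
  refine ⟨List.mem_range.1 (List.mem_of_find?_eq_some h), ?_⟩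
  have h2 := List.find?_some h
  exact of_decide_eq_true h2

theorem act_ne_none {T : ℕ → (ℕ → Bool) → ℕ → Bool} {a : (ℕ → Bool) → List ℕ} {s n : ℕ} {X : ℕ → Bool} {z : ℕ}
    (hz : z < s) (h : Good c T a s n X z) : act c T a s n X ≠ none := by
  classical
  unfold act
  intro h2
  rw [List.find?_eq_none] at h2
  exact h2 z (List.mem_range.2 hz) (decide_eq_true h)

theorem WB_even {T : ℕ → (ℕ → Bool) → ℕ → Bool} (X : ℕ → Bool) (m : ℕ) : WB c T X (2 * m) = X m := by
  unfold WB
  have h1 : 2 * m % 2 = 0 := by omega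
  have h2 : 2 * m / 2 = m := by omega
  simp only [h1, h2, if_true]

theorem WB_odd {T : ℕ → (ℕ → Bool) → ℕ → Bool} (X : ℕ → Bool) (m : ℕ) :
    WB c T X (2 * m + 1) = true ↔ ∃ s, m ∈ A c T s X := by
  unfold WB
  have h1 : ¬ ((2 * m + 1) % 2 = 0) := by omega
  have h2 : (2 * m + 1) / 2 = m := by omega
  rw [if_neg h1, @decide_eq_true_iff _ (Classical.propDecidable _), h2]

private theorem t09_imp {T : ℕ → (ℕ → Bool) → ℕ → Bool} (hT : IsAct m c T)
    (a : (ℕ → Bool) → List ℕ) (s n j : ℕ)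
    (hj : j < c n) (X : ℕ → Bool) (z : ℕ) (h : Good c T a s n (T j X) z) :
    Good c T a s n X z := by
  obtain ⟨h1, h2, k, hk, h3, h4⟩ := h
  obtain ⟨i, hi, hi2⟩ := hT.inv n j hj
  refine ⟨h1, ?_, ?_⟩
  · intro e he k hk
    have := h2 e he (m k i) (hT.mul_lt n k i hk hi)
    rwa [← hT.comp k i, hi2] at this
  · refine ⟨m k j, hT.mul_lt n k j hk hj, ?_, ?_⟩
    · rwa [hT.comp k j] at h3
    · intro y hy
      rw [hT.comp k j] at h4
      exact h4 y hy

private theorem t09_iff {T : ℕ → (ℕ → Bool) → ℕ → Bool} (hT : IsAct m c T)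
    (a : (ℕ → Bool) → List ℕ) (s n j : ℕ)
    (hj : j < c n) (X : ℕ → Bool) (z : ℕ) :
    Good c T a s n (T j X) z ↔ Good c T a s n X z := by
  refine ⟨t09_imp hT a s n j hj X z, fun h => ?_⟩
  obtain ⟨i, hi, hi2⟩ := hT.inv n j hj
  apply t09_imp hT a s n i hi (T j X) z
  rw [hi2]
  exact h

theorem act_sh {T : ℕ → (ℕ → Bool) → ℕ → Bool} (hT : IsAct m c T) (a : (ℕ → Bool) → List ℕ) (s n j : ℕ)
    (hj : j < c n) (X : ℕ → Bool) : act c T a s n (T j X) = act c T a s n X := by
  unfold act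
  congr 1
  funext z
  rw [t09_iff hT a s n j hj X z]

private theorem t10_hlt_mono {s s' : ℕ} (h : s ≤ s') {e z : ℕ} {τ : List Bool}
    (h1 : hlt s e z τ = true) : hlt s' e z τ = true := by
  unfold hlt at *
  rw [Option.isSome_iff_exists] at *
  obtain ⟨x, hx⟩ := h1
  exact ⟨x, Nat.Partrec.Code.evaln_mono h hx⟩

private theorem t10_En_mono {s s' : ℕ} (h : s ≤ s') {e z : ℕ} {Y : ℕ → Bool} (h1 : En s e z Y) :
    En s' e z Y := by
  obtain ⟨t, ht, h2⟩ := h1
  exact ⟨t, ht.trans h, t10_hlt_mono h h2⟩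

private theorem t10_A_step {T : ℕ → (ℕ → Bool) → ℕ → Bool} {s : ℕ} {X : ℕ → Bool} {z : ℕ} :
    z ∈ A c T (s + 1) X ↔ z ∈ A c T s X ∨ ∃ n < s, act c T (A c T s) s n X = some z := by
  show z ∈ A c T s X ++ (List.range s).filterMap (fun n => act c T (A c T s) s n X) ↔ _
  rw [List.mem_append, List.mem_filterMap]
  simp only [List.mem_range]

private theorem t10_A_mono {T : ℕ → (ℕ → Bool) → ℕ → Bool} {s s' : ℕ} (h : s ≤ s') {X : ℕ → Bool} {z : ℕ}
    (hz : z ∈ A c T s X) : z ∈ A c T s' X := by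
  induction h with
  | refl => exact hz
  | step _ ih => exact t10_A_step.2 (Or.inl ih)

private theorem t10_act_spec {T : ℕ → (ℕ → Bool) → ℕ → Bool} {a : (ℕ → Bool) → List ℕ} {s n : ℕ}
    {X : ℕ → Bool} {z : ℕ} (h : act c T a s n X = some z) : z < s ∧ Good c T a s n X z := by
  unfold act at h
  refine ⟨List.mem_range.1 (List.mem_of_find?_eq_some h), ?_⟩
  have := List.find?_some h
  simpa using this

theorem act_finite {T : ℕ → (ℕ → Bool) → ℕ → Bool} (hT : IsAct m c T) (X : ℕ → Bool) (n : ℕ) :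
    {s | n < s ∧ act c T (A c T s) s n X ≠ none}.Finite ∧
      {s | n < s ∧ act c T (A c T s) s n X ≠ none}.ncard ≤ c n := by
  have key : ∀ s, ∃ k, s ∈ {s | n < s ∧ act c T (A c T s) s n X ≠ none} →
      k < c n ∧ ∃ z, act c T (A c T s) s n X = some z ∧ En s n z (T k X) ∧
        ∀ y ∈ A c T s (T k X), ¬ En s n y (T k X) := by
    intro s
    by_cases hs : s ∈ {s | n < s ∧ act c T (A c T s) s n X ≠ none}
    · obtain ⟨h1, h2⟩ := hs
      obtain ⟨z, hz⟩ := Option.ne_none_iff_exists'.1 h2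
      obtain ⟨-, -, -, k, hk, h3, h4⟩ := t10_act_spec hz
      exact ⟨k, fun _ => ⟨hk, z, hz, h3, h4⟩⟩
    · exact ⟨0, fun h => absurd h hs⟩
  choose f hf using key
  have hlt' : ∀ s s', s ∈ {s | n < s ∧ act c T (A c T s) s n X ≠ none} →
      s' ∈ {s | n < s ∧ act c T (A c T s) s n X ≠ none} → s < s' → f s ≠ f s' := by
    intro s s' hs hs' hss he
    obtain ⟨hk, z, hz, h3, -⟩ := hf s hs
    obtain ⟨-, z', -, -, h4'⟩ := hf s' hs'
    have h5 : act c T (A c T s) s n (T (f s) X) = some z := by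
      rw [act_sh hT _ _ _ _ hk]; exact hz
    have h6 : z ∈ A c T (s + 1) (T (f s) X) := t10_A_step.2 (Or.inr ⟨n, hs.1, h5⟩)
    have h7 : z ∈ A c T s' (T (f s) X) := t10_A_mono hss h6
    have h8 : En s' n z (T (f s) X) := t10_En_mono hss.le h3
    rw [he] at h7 h8
    exact h4' z h7 h8
  have hinj : Set.InjOn f {s | n < s ∧ act c T (A c T s) s n X ≠ none} := by
    intro s hs s' hs' he
    by_contra hne
    rcases lt_or_gt_of_ne hne with h | h
    · exact hlt' s s' hs hs' h he
    · exact hlt' s' s hs' hs h he.symm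
  have hmaps : Set.MapsTo f {s | n < s ∧ act c T (A c T s) s n X ≠ none}
      ((Finset.range (c n) : Finset ℕ) : Set ℕ) := by
    intro s hs
    exact Finset.mem_coe.2 (Finset.mem_range.2 (hf s hs).1)
  have hfin : {s | n < s ∧ act c T (A c T s) s n X ≠ none}.Finite :=
    Set.Finite.of_injOn hmaps hinj (Finset.finite_toSet _)
  refine ⟨hfin, ?_⟩
  have := Set.ncard_le_ncard_of_injOn f hmaps hinj (Finset.finite_toSet _)
  rwa [Set.ncard_coe_finset, Finset.card_range] at this

theorem act_eventually {T : ℕ → (ℕ → Bool) → ℕ → Bool} (hT : IsAct m c T) (X : ℕ → Bool) (N : ℕ) :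
    ∃ s0, N ≤ s0 ∧ ∀ s ≥ s0, ∀ n < N, act c T (A c T s) s n X = none := by
  have hfin : (⋃ n ∈ Finset.range N, {s | n < s ∧ act c T (A c T s) s n X ≠ none}).Finite :=
    Set.Finite.biUnion (Finset.finite_toSet _) fun n _ => (act_finite hT X n).1
  obtain ⟨b, hb⟩ := hfin.bddAbove
  refine ⟨max N (b + 1), le_max_left _ _, fun s hs n hn => ?_⟩
  by_contra hne
  have h1 : N ≤ s := (le_max_left _ _).trans hs
  have h2 : b + 1 ≤ s := (le_max_right _ _).trans hs
  have h3 : s ∈ ⋃ n ∈ Finset.range N, {s | n < s ∧ act c T (A c T s) s n X ≠ none} := by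
    simp only [Set.mem_iUnion]
    exact ⟨n, Finset.mem_range.2 hn, by omega, hne⟩
  have h4 := hb h3
  omega

private theorem t12_A_mono {T : ℕ → (ℕ → Bool) → ℕ → Bool} {s s' : ℕ} (h : s ≤ s') {X : ℕ → Bool} {z : ℕ}
    (hz : z ∈ A c T s X) : z ∈ A c T s' X := by
  induction h with
  | refl => exact hz
  | step _ ih =>
    show z ∈ A c T _ X ++ _
    exact List.mem_append_left _ ih

/-- C4 -/
theorem jn_stable (T : ℕ → (ℕ → Bool) → ℕ → Bool) (X : ℕ → Bool) (b : ℕ) :
    ∃ s0, ∀ s ≥ s0, ∀ i < b, jn X (A c T s X) i = WB c T X i := by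
  induction b with
  | zero => exact ⟨0, fun s _ i hi => absurd hi (Nat.not_lt_zero _)⟩
  | succ b ih =>
    obtain ⟨s0, hs0⟩ := ih
    obtain ⟨s1, hs1⟩ : ∃ s1, ∀ s ≥ s1, jn X (A c T s X) b = WB c T X b := by
      unfold jn WB
      by_cases hb : b % 2 = 0
      · exact ⟨0, fun s _ => by rw [if_pos hb, if_pos hb]⟩
      · by_cases hex : ∃ s, b / 2 ∈ A c T s X
        · obtain ⟨s1, h1⟩ := hex
          refine ⟨s1, fun s hs => ?_⟩
          have h2 : ∃ s, b / 2 ∈ A c T s X := ⟨s1, h1⟩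
          simp only [if_neg hb, t12_A_mono hs h1, h2, decide_true]
        · refine ⟨0, fun s _ => ?_⟩
          have h2 : ¬ b / 2 ∈ A c T s X := fun h => hex ⟨s, h⟩
          simp only [if_neg hb, h2, hex, decide_false]
    refine ⟨max s0 s1, fun s hs i hi => ?_⟩
    rcases Nat.lt_succ_iff_lt_or_eq.1 hi with h | h
    · exact hs0 s (le_trans (le_max_left _ _) hs) i h
    · rw [h]
      exact hs1 s (le_trans (le_max_right _ _) hs)

private theorem t13_mem {T : ℕ → (ℕ → Bool) → ℕ → Bool} {X : ℕ → Bool} {z : ℕ} (s : ℕ) (hz : z ∈ A c T s X) :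
    ∃ s' n, n < s' ∧ act c T (A c T s') s' n X = some z := by
  induction s with
  | zero => exact absurd hz (by simp [A])
  | succ s ih =>
    have h : z ∈ A c T s X ++ (List.range s).filterMap (fun n => act c T (A c T s) s n X) := hz
    rw [List.mem_append, List.mem_filterMap] at h
    rcases h with h | ⟨n, hn, h⟩
    · exact ih h
    · exact ⟨s, n, List.mem_range.1 hn, h⟩

private theorem t13_act_ge {T : ℕ → (ℕ → Bool) → ℕ → Bool} {a : (ℕ → Bool) → List ℕ} {s n : ℕ}
    {X : ℕ → Bool} {z : ℕ} (h : act c T a s n X = some z) : gb c n ≤ z := by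
  unfold act at h
  have h1 := List.find?_some h
  have h2 : Good c T a s n X z := by simpa using h1
  exact h2.1

theorem coinfinite {T : ℕ → (ℕ → Bool) → ℕ → Bool} (hT : IsAct m c T) (X : ℕ → Bool) :
    {z | ¬ ∃ s, z ∈ A c T s X}.Infinite := by
  intro hfin
  have key : ∀ N : ℕ, gb c N ≤ (∑ n ∈ Finset.range N, c n) + hfin.toFinset.card := by
    intro N
    let F : Finset ℕ := (Finset.range N).biUnion (fun n =>
      ((act_finite hT X n).1.toFinset).image (fun s => (act c T (A c T s) s n X).getD 0))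
    have hF : F.card ≤ ∑ n ∈ Finset.range N, c n := by
      refine Finset.card_biUnion_le.trans (Finset.sum_le_sum fun n _ => ?_)
      refine Finset.card_image_le.trans ?_
      rw [← Set.ncard_eq_toFinset_card _ (act_finite hT X n).1]
      exact (act_finite hT X n).2
    have hsub : Finset.range (gb c N) ⊆ F ∪ hfin.toFinset := by
      intro z hz
      rw [Finset.mem_range] at hz
      rw [Finset.mem_union]
      by_cases hU : ∃ s, z ∈ A c T s X
      · left
        obtain ⟨s, hs⟩ := hU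
        obtain ⟨s', n, hn, ha⟩ := t13_mem s hs
        have h4 := t13_act_ge ha
        have hnN : n < N := by
          by_contra hcon
          have := gb_mono (c := c) (n := N) (n' := n) (by omega)
          omega
        refine Finset.mem_biUnion.2 ⟨n, Finset.mem_range.2 hnN, Finset.mem_image.2 ⟨s', ?_, ?_⟩⟩
        · rw [Set.Finite.mem_toFinset]
          exact ⟨hn, by rw [ha]; simp⟩
        · rw [ha]; rfl
      · right
        rw [Set.Finite.mem_toFinset]
        exact hU
    have := (Finset.card_le_card hsub).trans (Finset.card_union_le _ _)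
    rw [Finset.card_range] at this
    omega
  have h1 := key (hfin.toFinset.card + 1)
  unfold gb at h1
  omega

private theorem t14_hlt_succ {s e z : ℕ} {τ : List Bool} (h1 : hlt s e z τ = true) :
    hlt (s + 1) e z τ = true := by
  unfold hlt at h1 ⊢
  rw [Option.isSome_iff_exists] at h1 ⊢
  obtain ⟨x, hx⟩ := h1
  exact ⟨x, Code.evaln_mono (Nat.le_succ s) hx⟩

private theorem t14_res_le (s e : ℕ) (Y : ℕ → Bool) : res s e Y ≤ s := by
  unfold res
  cases hf : (List.range (s + 1)).find? (fun t => hlt s e e (pre Y t)) with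
  | none => simp
  | some u =>
    have := List.mem_range.1 (List.mem_of_find?_eq_some hf)
    simp only [Option.getD_some]
    omega

/-- once the requirements up to `e` are silent, a halting computation is preserved -/
theorem res_step {T : ℕ → (ℕ → Bool) → ℕ → Bool} (hT : IsAct m c T) (X : ℕ → Bool) {s e : ℕ}
    (h0 : ∀ n < e + 1, act c T (A c T s) s n X = none)
    (h : En s e e (jn X (A c T s X))) :
    En (s + 1) e e (jn X (A c T (s + 1) X)) ∧
      res (s + 1) e (jn X (A c T (s + 1) X)) ≤ res s e (jn X (A c T s X)) := by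
  have h1 := En_iff_res.1 h
  have hr := t14_res_le s e (jn X (A c T s X))
  have hpre : pre (jn X (A c T (s + 1) X)) (res s e (jn X (A c T s X))) =
      pre (jn X (A c T s X)) (res s e (jn X (A c T s X))) := by
    unfold pre
    apply List.map_congr_left
    intro i hi
    rw [List.mem_range] at hi
    unfold jn
    by_cases h2 : i % 2 = 0
    · rw [if_pos h2, if_pos h2]
    · rw [if_neg h2, if_neg h2]
      apply decide_eq_decide.2
      constructor
      · intro hz
        rcases mem_A_succ.1 hz with hz | ⟨n, _, hn2⟩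
        · exact hz
        · exfalso
          have hne : e < n := by
            by_contra hcon
            have := h0 n (by omega)
            rw [this] at hn2
            exact absurd hn2 (by simp)
          have hg := (act_spec hn2).2.2.1 e hne 0 (hT.pos n)
          rw [sh_zero hT] at hg
          omega
      · intro hz
        exact mem_A_succ.2 (Or.inl hz)
  have h3 : hlt (s + 1) e e (pre (jn X (A c T (s + 1) X)) (res s e (jn X (A c T s X)))) = true := by
    rw [hpre]
    exact t14_hlt_succ h1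
  exact ⟨⟨_, by omega, h3⟩, res_le_of_hlt (by omega) h3⟩

theorem t15_res_le (s e : ℕ) (Y : ℕ → Bool) : res s e Y ≤ s := by
  unfold res
  rcases h : (List.range (s + 1)).find? (fun t => hlt s e e (pre Y t)) with _ | t
  · simp
  · have := List.mem_of_find?_eq_some h
    rw [List.mem_range] at this
    simp only [Option.getD_some]
    omega

theorem t15_res_zero {s e : ℕ} {Y : ℕ → Bool} (h : ¬ En s e e Y) : res s e Y = 0 := by
  unfold res
  have h1 : (List.range (s + 1)).find? (fun t => hlt s e e (pre Y t)) = none := by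
    rw [List.find?_eq_none]
    intro t ht ht2
    rw [List.mem_range] at ht
    exact h ⟨t, by omega, ht2⟩
  rw [h1]
  rfl

/-- C6b -/
theorem res_bounded {T : ℕ → (ℕ → Bool) → ℕ → Bool} (hT : IsAct m c T) (X : ℕ → Bool) (e : ℕ) :
    ∃ b, ∀ s, res s e (jn X (A c T s X)) ≤ b := by
  obtain ⟨s0, _, h0⟩ := act_eventually hT X (e + 1)
  by_cases hC : ∃ s1, s0 ≤ s1 ∧ En s1 e e (jn X (A c T s1 X))
  · obtain ⟨s1, hs1, hE⟩ := hC
    have key : ∀ k, En (s1 + k) e e (jn X (A c T (s1 + k) X)) ∧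
        res (s1 + k) e (jn X (A c T (s1 + k) X)) ≤ res s1 e (jn X (A c T s1 X)) := by
      intro k
      induction k with
      | zero => exact ⟨hE, le_rfl⟩
      | succ k ih =>
        have := res_step hT X (s := s1 + k) (e := e)
          (fun n hn => h0 (s1 + k) (by omega) n hn) ih.1
        exact ⟨this.1, this.2.trans ih.2⟩
    refine ⟨s1, fun s => ?_⟩
    rcases le_total s1 s with h | h
    · obtain ⟨k, rfl⟩ := Nat.exists_eq_add_of_le h
      exact (key k).2.trans (t15_res_le _ _ _)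
    · exact (t15_res_le _ _ _).trans h
  · refine ⟨s0, fun s => ?_⟩
    rcases le_total s0 s with h | h
    · rw [t15_res_zero (fun hE => hC ⟨s, h, hE⟩)]
      exact Nat.zero_le _
    · exact (t15_res_le _ _ _).trans h

private theorem t16_mono {s s' : ℕ} (h : s ≤ s') {e z : ℕ} {τ : List Bool}
    (h1 : hlt s e z τ = true) : hlt s' e z τ = true := by
  unfold hlt at h1 ⊢
  rw [Option.isSome_iff_exists] at h1 ⊢
  obtain ⟨a, ha⟩ := h1
  exact ⟨a, Code.evaln_mono h ha⟩

private theorem t16_ex (e z : ℕ) (τ : List Bool)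
    (h : ((Denumerable.ofNat Code e).eval (encode (τ, z))).Dom) : ∃ s, hlt s e z τ = true := by
  obtain ⟨s, hs⟩ := Code.evaln_complete.1 (Part.get_mem h)
  refine ⟨s, ?_⟩
  unfold hlt
  rw [Option.isSome_iff_exists]
  exact ⟨_, hs⟩

/-- C7a -/
theorem jump_true {T : ℕ → (ℕ → Bool) → ℕ → Bool} (X : ℕ → Bool) (e : ℕ)
    (h : jump (WB c T X) e = true) : ∃ s0, ∀ s ≥ s0, En s e e (jn X (A c T s X)) := by
  rw [jump_eq_true] at h
  obtain ⟨k, hk⟩ := h
  obtain ⟨s1, hs1⟩ := t16_ex e e _ hk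
  obtain ⟨s2, hs2⟩ := jn_stable T X k
  refine ⟨max (max s1 s2) k, fun s hs => ⟨k, (le_max_right _ _).trans hs, ?_⟩⟩
  have h1 : s1 ≤ s := ((le_max_left s1 s2).trans (le_max_left _ _)).trans hs
  have h2 : s2 ≤ s := ((le_max_right s1 s2).trans (le_max_left _ _)).trans hs
  have h3 : pre (jn X (A c T s X)) k = (List.range k).map (WB c T X) := by
    unfold pre
    refine List.map_congr_left fun i hi => ?_
    exact hs2 s h2 i (List.mem_range.1 hi)
  rw [h3]
  exact t16_mono h1 hs1

theorem jump_false {T : ℕ → (ℕ → Bool) → ℕ → Bool} (hT : IsAct m c T) (X : ℕ → Bool) (e : ℕ)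
    (h : jump (WB c T X) e = false) : ∃ s0, ∀ s ≥ s0, ¬ En s e e (jn X (A c T s X)) := by
  obtain ⟨s0, _, hs0⟩ := act_eventually hT X (e + 1)
  refine ⟨s0, ?_⟩
  intro s1 hs1 hEn
  have hind : ∀ s ≥ s1, En s e e (jn X (A c T s X)) ∧
      res s e (jn X (A c T s X)) ≤ res s1 e (jn X (A c T s1 X)) := by
    intro s hs
    induction s, hs using Nat.le_induction with
    | base => exact ⟨hEn, le_rfl⟩
    | succ s hs ih =>
      obtain ⟨h1, h2⟩ := res_step hT X (hs0 s (le_trans hs1 hs)) ih.1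
      exact ⟨h1, h2.trans ih.2⟩
  obtain ⟨s2, hs2⟩ := jn_stable T X (res s1 e (jn X (A c T s1 X)))
  obtain ⟨h1, h2⟩ := hind (max s1 s2) (le_max_left _ _)
  have h3 := En_iff_res.mp h1
  have h4 : pre (jn X (A c T (max s1 s2) X))
      (res (max s1 s2) e (jn X (A c T (max s1 s2) X))) =
      pre (WB c T X) (res (max s1 s2) e (jn X (A c T (max s1 s2) X))) := by
    unfold pre
    apply List.map_congr_left
    intro i hi
    rw [List.mem_range] at hi
    exact hs2 _ (le_max_right _ _) i (lt_of_lt_of_le hi h2)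
  rw [h4] at h3
  have h5 : jump (WB c T X) e = true :=
    jump_eq_true.mpr ⟨_, (exists_hlt_iff e e _).mp ⟨_, h3⟩⟩
  rw [h] at h5
  exact Bool.false_ne_true h5

/-- C8 -/
theorem simple {T : ℕ → (ℕ → Bool) → ℕ → Bool} (hT : IsAct m c T) (X : ℕ → Bool) (n : ℕ)
    (h : (WE X n).Infinite) : ∃ z ∈ WE X n, ∃ s, z ∈ A c T s X := by
  classical
  by_contra hcon
  push Not at hcon
  have hb : ∀ e k, ∃ b, ∀ s, res s e (jn (T k X) (A c T s (T k X))) ≤ b :=
    fun e k => res_bounded hT (T k X) e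
  choose b hb using hb
  have hB : ∀ e < n, ∀ k < c n,
      b e k ≤ ∑ e ∈ Finset.range n, ∑ k ∈ Finset.range (c n), b e k := by
    intro e he k hk
    have h1 : b e k ≤ ∑ k ∈ Finset.range (c n), b e k :=
      Finset.single_le_sum (f := fun k => b e k) (fun _ _ => Nat.zero_le _)
        (Finset.mem_range.2 hk)
    have h2 : ∑ k ∈ Finset.range (c n), b e k ≤
        ∑ e ∈ Finset.range n, ∑ k ∈ Finset.range (c n), b e k :=
      Finset.single_le_sum (f := fun e => ∑ k ∈ Finset.range (c n), b e k)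
        (fun _ _ => Nat.zero_le _) (Finset.mem_range.2 he)
    exact h1.trans h2
  obtain ⟨z, hz, hzB⟩ := h.exists_gt
    (max (∑ e ∈ Finset.range n, ∑ k ∈ Finset.range (c n), b e k) (gb c n))
  obtain ⟨s1, hs1⟩ := (mem_WE_iff X n z).1 hz
  have hinf : {s | n < s ∧ act c T (A c T s) s n X ≠ none}.Infinite := by
    refine Set.Infinite.mono (s := Set.Ioi (max (max s1 z) n)) ?_ (Set.Ioi_infinite _)
    intro s hs
    have h0 : max (max s1 z) n < s := hs
    have h1 : s1 < s := lt_of_le_of_lt ((le_max_left _ _).trans (le_max_left _ _)) h0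
    have h2 : z < s := lt_of_le_of_lt ((le_max_right _ _).trans (le_max_left _ _)) h0
    have h3 : n < s := lt_of_le_of_lt (le_max_right _ _) h0
    refine ⟨h3, act_ne_none h2 ⟨?_, ?_, ?_⟩⟩
    · exact (lt_of_le_of_lt (le_max_right _ _) hzB).le
    · intro e he k hk
      exact (hb e k s).trans ((hB e he k hk).trans (lt_of_le_of_lt (le_max_left _ _) hzB).le)
    · refine ⟨0, hT.pos n, ?_, ?_⟩
      · rw [sh_zero hT]
        exact En_mono h1.le hs1
      · intro y hy hEn
        rw [sh_zero hT] at hy hEn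
        exact hcon y ((mem_WE_iff X n y).2 ⟨s, hEn⟩) s hy
  exact hinf (act_finite hT X n).1

theorem almost_equal {T : ℕ → (ℕ → Bool) → ℕ → Bool} (hT : IsAct m c T) (X : ℕ → Bool) (k : ℕ) :
    ∃ b, ∀ z ≥ b, ((∃ s, z ∈ A c T s X) ↔ ∃ s, z ∈ A c T s (T k X)) := by
  obtain ⟨K, hK⟩ := hT.unb k
  obtain ⟨s1, -, h1⟩ := act_eventually hT X K
  obtain ⟨s2, -, h2⟩ := act_eventually hT (T k X) K
  obtain ⟨s0, hs0⟩ : ∃ s0, s0 = max s1 s2 := ⟨_, rfl⟩
  have key : ∀ s ≥ s0, ∀ n z, act c T (A c T s) s n X = some z ↔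
      act c T (A c T s) s n (T k X) = some z := by
    intro s hs n z
    by_cases hn : n < K
    · rw [h1 s (by omega) n hn, h2 s (by omega) n hn]
    · have hkn : k < c n := lt_of_lt_of_le hK (hT.mono K n (by omega))
      rw [act_sh hT (A c T s) s n k hkn X]
  have hmem : ∀ (Y : ℕ → Bool) (z s : ℕ), z ∈ A c T s Y →
      z ∈ A c T s0 Y ∨ ∃ s' ≥ s0, ∃ n < s', act c T (A c T s') s' n Y = some z := by
    intro Y z s
    induction s with
    | zero => intro h; exact Or.inl (A_mono (Nat.zero_le _) h)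
    | succ s ih =>
      intro h
      rcases mem_A_succ.1 h with h' | ⟨n, hn, h'⟩
      · exact ih h'
      · by_cases hss : s0 ≤ s
        · exact Or.inr ⟨s, hss, n, hn, h'⟩
        · exact Or.inl (A_mono (by omega) h)
  refine ⟨(A c T s0 X ++ A c T s0 (T k X)).toFinset.sup id + 1, fun z hz => ?_⟩
  have hbd : z ∉ A c T s0 X ++ A c T s0 (T k X) := by
    intro h
    have := Finset.le_sup (f := id) (List.mem_toFinset.2 h)
    simp only [id] at this
    omega
  rw [List.mem_append, not_or] at hbd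
  constructor
  · rintro ⟨s, hs⟩
    rcases hmem X z s hs with h | ⟨s', hs', n, hn, h⟩
    · exact absurd h hbd.1
    · exact ⟨s' + 1, mem_A_succ.2 (Or.inr ⟨n, hn, (key s' hs' n z).1 h⟩)⟩
  · rintro ⟨s, hs⟩
    rcases hmem (T k X) z s hs with h | ⟨s', hs', n, hn, h⟩
    · exact absurd h hbd.2
    · exact ⟨s' + 1, mem_A_succ.2 (Or.inr ⟨n, hn, (key s' hs' n z).2 h⟩)⟩


end Pool.Agent.H869R3.LF
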