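import Pool.Agent.H869R3.LF.Tab
import Pool.Agent.H869R3.RT.Jn

set_option autoImplicit false

/-!
Computability of the construction for an action which is uniformly truth-table computable.
-/

namespace Pool.Agent.H869R3.LF

open Encodable Pool.Agent.Helper227 Pool.Agent.H869R3.RT
open Pool.Agent.H548R2.Post (hlt En res jn ext mX dtab t31_dtab primrec_En
  primrec_pow t42_En_congr t42_jn t42_eq_pre tLe_jump_of_limit t37_mem chr chr_WB not_jump_le)
open Nat.Partrec (Code)

/-- the table of the values of `f` below `N` -/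
def tab (f : ℕ → ℕ) (N : ℕ) : List ℕ := (List.range N).map f

theorem tab_getD {f : ℕ → ℕ} {N i : ℕ} (h : i < N) : (tab f N).getD i 0 = f i := by
  unfold tab
  rw [List.getD_eq_getElem _ _ (by simpa using h)]
  simp

theorem tab_comp {f : ℕ → ℕ} (hf : Computable f) : Computable fun N : ℕ => tab f N := by
  have hc : Computable₂ fun (l : List ℕ) (b : ℕ) => l ++ [b] :=
    (Primrec.list_concat (α := ℕ)).to_comp
  have h1 : Computable₂ fun (_ : ℕ) (y : ℕ × List ℕ) => y.2 ++ [f y.1] :=
    Computable₂.comp (f := fun (l : List ℕ) (b : ℕ) => l ++ [b])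
      (g := fun r : ℕ × (ℕ × List ℕ) => r.2.2) (h := fun r : ℕ × (ℕ × List ℕ) => f r.2.1) hc
      (Computable.snd.comp Computable.snd) (hf.comp (Computable.fst.comp Computable.snd))
  have h2 := Computable.nat_rec (f := fun x : ℕ => x)
    (g := fun _ : ℕ => ([] : List ℕ)) Computable.id (Computable.const []) h1
  refine h2.of_eq fun N => ?_
  induction N with
  | zero => rfl
  | succ N ih =>
    simp only at ih ⊢
    rw [ih]
    simp [tab, List.range_succ]

theorem gb_comp {c : ℕ → ℕ} (hc : Computable c) : Computable (gb c) := by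
  have h6 : Computable₂ fun a b : ℕ => a + b := Primrec.nat_add.to_comp
  have h1 : Computable₂ fun (_ : ℕ) (y : ℕ × ℕ) => y.2 + c y.1 :=
    Computable₂.comp (f := fun a b : ℕ => a + b) (g := fun r : ℕ × (ℕ × ℕ) => r.2.2)
      (h := fun r : ℕ × (ℕ × ℕ) => c r.2.1) h6
      (Computable.snd.comp Computable.snd) (hc.comp (Computable.fst.comp Computable.snd))
  have h2 := Computable.nat_rec (f := fun x : ℕ => x)
    (g := fun _ : ℕ => (0 : ℕ)) Computable.id (Computable.const 0) h1
  have h3 : Computable fun n : ℕ => ∑ i ∈ Finset.range n, c i := by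
    refine h2.of_eq fun N => ?_
    induction N with
    | zero => rfl
    | succ N ih =>
      simp only at ih ⊢
      rw [ih, Finset.sum_range_succ]
  exact Computable₂.comp (f := fun a b : ℕ => a + b) (g := fun n : ℕ => n)
    (h := fun n : ℕ => ∑ i ∈ Finset.range n, c i) h6 Computable.id h3

section
variable (m : ℕ → ℕ → ℕ) (c : ℕ → ℕ) (δ : ℕ → ℕ → List Bool → Bool) (u : ℕ → ℕ → ℕ)

def NC (s : ℕ) : ℕ := Nat.pair (c s) s

/-- the tables for the group -/
def tb (s : ℕ) : TT :=
  (tab (fun p => m p.unpair.1 p.unpair.2) (Nat.pair (c s) (c s)), tab c (s + 1), tab (gb c) (s + 1))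

def Dm (σ : List Bool) (k i : ℕ) : Bool := xor (σ.getD i false) (δ k i (tk σ (u k i)))

def Mm (s : ℕ) : ℕ := s + Bs u (NC c s)

def Am (σ : List Bool) (s : ℕ) : List ℕ :=
  (tabB (tb m c s) (dtab (Dm δ u σ) (NC c s)) (tk σ s) s).getD 0 []

end

variable {m : ℕ → ℕ → ℕ} {c : ℕ → ℕ} {δ : ℕ → ℕ → List Bool → Bool} {u : ℕ → ℕ → ℕ}
variable {T : ℕ → (ℕ → Bool) → ℕ → Bool}

theorem tb_ok (s : ℕ) : TOk m c (tb m c s) s := by
  refine ⟨fun j hj k hk => ?_, fun n hn => ?_, fun n hn => ?_⟩
  · have hp : Nat.pair j k < Nat.pair (c s) (c s) :=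
      (Nat.pair_lt_pair_left _ hj).trans (Nat.pair_lt_pair_right _ hk)
    show (tab (fun p => m p.unpair.1 p.unpair.2) (Nat.pair (c s) (c s))).getD (Nat.pair j k) 0 = _
    rw [tab_getD hp, Nat.unpair_pair]
  · exact tab_getD (f := c) (N := s + 1) (by omega)
  · exact tab_getD (f := gb c) (N := s + 1) (by omega)

theorem mX_tab (hc : ∀ k X n, T k X n = δ k n (pre X (u k n))) (X : ℕ → Bool) (s k i : ℕ)
    (hk : k < c s) (hi : i < s) :
    mX (dtab (Dm δ u (pre X (Mm c u s))) (NC c s)) (pre X s) k i = T k X i := by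
  have hp : Nat.pair k i < NC c s :=
    (Nat.pair_lt_pair_left _ hk).trans (Nat.pair_lt_pair_right _ hi)
  have h1 := Bs_le (u := u) hp
  rw [Nat.unpair_pair] at h1
  have h2 : u k i ≤ Mm c u s := by
    unfold Mm
    simp only at h1
    omega
  have h3 : i < Mm c u s := by
    unfold Mm
    omega
  unfold mX
  rw [t31_dtab hp, pre_getD X s i false hi]
  unfold Dm
  rw [tk_pre h2, ← hc, pre_getD X _ i false h3]
  cases X i <;> cases T k X i <;> rfl

theorem Am_eq (hT : IsAct m c T) (hc : ∀ k X n, T k X n = δ k n (pre X (u k n))) (X : ℕ → Bool)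
    (s : ℕ) : Am m c δ u (pre X (Mm c u s)) s = A c T s X := by
  have hs : s ≤ Mm c u s := Nat.le_add_right _ _
  unfold Am
  rw [tk_pre hs]
  have h1 := tabB_eq hT (X := X) (t := tb m c s) (d := dtab (Dm δ u (pre X (Mm c u s))) (NC c s))
    (σ := pre X s) (by
    rw [length_pre]
    exact tb_ok s) (by
    intro k hk i hi
    rw [length_pre] at hk hi
    exact mX_tab hc X s k i hk hi) s (by rw [length_pre]) 0 (hT.pos _)
  rw [h1, sh_zero hT]

section comp
variable (hm : Computable₂ m) (hcc : Computable c)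
  (hδ : Computable fun x : (ℕ × ℕ) × List Bool => δ x.1.1 x.1.2 x.2) (hu : Computable₂ u)

theorem NC_comp (hcc : Computable c) : Computable fun s : ℕ => NC c s := by
  have h : Computable₂ Nat.pair := Primrec₂.natPair.to_comp
  exact Computable₂.comp (f := Nat.pair) (g := fun s : ℕ => c s) (h := fun s : ℕ => s) h hcc
    Computable.id

theorem tb_comp (hm : Computable₂ m) (hcc : Computable c) : Computable fun s : ℕ => tb m c s := by
  have h : Computable₂ Nat.pair := Primrec₂.natPair.to_comp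
  have h1 : Computable fun s : ℕ => Nat.pair (c s) (c s) :=
    Computable₂.comp (f := Nat.pair) (g := fun s : ℕ => c s) (h := fun s : ℕ => c s) h hcc hcc
  have h2 : Computable fun p : ℕ => m p.unpair.1 p.unpair.2 :=
    hm.comp (Computable.fst.comp Computable.unpair) (Computable.snd.comp Computable.unpair)
  have h3 : Computable fun s : ℕ => tab (fun p => m p.unpair.1 p.unpair.2) (Nat.pair (c s) (c s)) :=
    Computable.comp (f := fun N : ℕ => tab (fun p => m p.unpair.1 p.unpair.2) N)
      (g := fun s : ℕ => Nat.pair (c s) (c s)) (tab_comp h2) h1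
  have h4 : Computable fun s : ℕ => tab c (s + 1) :=
    Computable.comp (f := fun N : ℕ => tab c N) (g := fun s : ℕ => s + 1) (tab_comp hcc)
      Computable.succ
  have h5 : Computable fun s : ℕ => tab (gb c) (s + 1) :=
    Computable.comp (f := fun N : ℕ => tab (gb c) N) (g := fun s : ℕ => s + 1)
      (tab_comp (gb_comp hcc)) Computable.succ
  exact h3.pair (h4.pair h5)

include hm hcc hδ hu

omit hm hcc in
theorem Dm_comp : Computable fun x : List Bool × ℕ × ℕ => Dm δ u x.1 x.2.1 x.2.2 := by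
  have hx : Computable₂ xor := (Primrec.dom_bool₂ xor).to_comp
  have f1 : Computable (fun r : List Bool × ℕ × ℕ => r.2.1) := Computable.fst.comp Computable.snd
  have f2 : Computable (fun r : List Bool × ℕ × ℕ => r.2.2) := Computable.snd.comp Computable.snd
  have g : Computable (fun r : List Bool × ℕ × ℕ => r.1.getD r.2.2 false) :=
    ((Primrec.list_getD false).comp Primrec.fst (Primrec.snd.comp Primrec.snd)).to_comp
  have g0 : Computable (fun r : List Bool × ℕ × ℕ => u r.2.1 r.2.2) := hu.comp f1 f2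
  have g1 : Computable (fun r : List Bool × ℕ × ℕ => tk r.1 (u r.2.1 r.2.2)) :=
    Computable.comp (f := fun x : List Bool × ℕ => tk x.1 x.2)
      (g := fun r : List Bool × ℕ × ℕ => ((r.1, u r.2.1 r.2.2) : List Bool × ℕ)) tk_comp
      (Computable.fst.pair g0)
  have g2 : Computable (fun r : List Bool × ℕ × ℕ => δ r.2.1 r.2.2 (tk r.1 (u r.2.1 r.2.2))) :=
    Computable.comp (f := fun x : (ℕ × ℕ) × List Bool => δ x.1.1 x.1.2 x.2)
      (g := fun r : List Bool × ℕ × ℕ =>
        (((r.2.1, r.2.2), tk r.1 (u r.2.1 r.2.2)) : (ℕ × ℕ) × List Bool)) hδ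
      ((f1.pair f2).pair g1)
  exact Computable₂.comp (f := xor) (g := fun r : List Bool × ℕ × ℕ => r.1.getD r.2.2 false)
    (h := fun r : List Bool × ℕ × ℕ => δ r.2.1 r.2.2 (tk r.1 (u r.2.1 r.2.2))) hx g g2

omit hm hcc in
theorem dm_comp : Computable fun x : List Bool × ℕ => dtab (Dm δ u x.1) x.2 := by
  have h1 : Computable₂ fun (x : List Bool × ℕ) (y : ℕ × List Bool) =>
      y.2 ++ [Dm δ u x.1 y.1.unpair.1 y.1.unpair.2] := by
    have hq : Computable fun r : (List Bool × ℕ) × (ℕ × List Bool) => r.2.1.unpair :=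
      Computable.unpair.comp (Computable.fst.comp Computable.snd)
    have hg : Computable fun r : (List Bool × ℕ) × (ℕ × List Bool) =>
        ((r.1.1, r.2.1.unpair.1, r.2.1.unpair.2) : List Bool × ℕ × ℕ) :=
      (Computable.fst.comp Computable.fst).pair
        ((Computable.fst.comp hq).pair (Computable.snd.comp hq))
    have hf : Computable fun r : (List Bool × ℕ) × (ℕ × List Bool) =>
        Dm δ u r.1.1 r.2.1.unpair.1 r.2.1.unpair.2 :=
      Computable.comp (f := fun x : List Bool × ℕ × ℕ => Dm δ u x.1 x.2.1 x.2.2)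
        (g := fun r : (List Bool × ℕ) × (ℕ × List Bool) =>
          ((r.1.1, r.2.1.unpair.1, r.2.1.unpair.2) : List Bool × ℕ × ℕ))
        (Dm_comp hδ hu) hg
    have hs : Computable fun r : (List Bool × ℕ) × (ℕ × List Bool) => r.2.2 :=
      Computable.snd.comp Computable.snd
    have hc : Computable₂ fun (l : List Bool) (b : Bool) => l ++ [b] :=
      (Primrec.list_concat (α := Bool)).to_comp
    exact Computable₂.comp (f := fun (l : List Bool) (b : Bool) => l ++ [b])
      (g := fun r : (List Bool × ℕ) × (ℕ × List Bool) => r.2.2)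
      (h := fun r : (List Bool × ℕ) × (ℕ × List Bool) =>
        Dm δ u r.1.1 r.2.1.unpair.1 r.2.1.unpair.2) hc hs hf
  have h2 := Computable.nat_rec (f := fun x : List Bool × ℕ => x.2)
    (g := fun _ : List Bool × ℕ => ([] : List Bool)) Computable.snd (Computable.const []) h1
  refine h2.of_eq fun x => ?_
  obtain ⟨σ, N⟩ := x
  induction N with
  | zero => rfl
  | succ N ih =>
    simp only at ih ⊢
    rw [ih]
    simp [dtab, List.range_succ]

omit hδ hm in
theorem Mm_comp : Computable fun s : ℕ => Mm c u s := by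
  have h5 : Computable fun s : ℕ => Bs u (NC c s) :=
    Computable.comp (f := Bs u) (g := fun s : ℕ => NC c s) (Bs_comp hu) (NC_comp hcc)
  have h6 : Computable₂ fun a b : ℕ => a + b := Primrec.nat_add.to_comp
  exact Computable₂.comp (f := fun a b : ℕ => a + b) (g := fun s : ℕ => s)
    (h := fun s : ℕ => Bs u (NC c s)) h6 Computable.id h5

theorem Am_comp : Computable fun x : List Bool × ℕ => Am m c δ u x.1 x.2 := by
  have hn : Computable fun x : List Bool × ℕ => NC c x.2 :=
    Computable.comp (f := fun s : ℕ => NC c s) (g := fun x : List Bool × ℕ => x.2)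
      (NC_comp hcc) Computable.snd
  have hb : Computable fun x : List Bool × ℕ => tb m c x.2 :=
    Computable.comp (f := fun s : ℕ => tb m c s) (g := fun x : List Bool × ℕ => x.2)
      (tb_comp hm hcc) Computable.snd
  have hd : Computable fun x : List Bool × ℕ => dtab (Dm δ u x.1) (NC c x.2) :=
    Computable.comp (f := fun x : List Bool × ℕ => dtab (Dm δ u x.1) x.2)
      (g := fun x : List Bool × ℕ => ((x.1, NC c x.2) : List Bool × ℕ))
      (dm_comp hδ hu) (Computable.fst.pair hn)
  have hg : Computable fun x : List Bool × ℕ =>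
      ((((dtab (Dm δ u x.1) (NC c x.2), tk x.1 x.2), tb m c x.2), x.2) :
        ((List Bool × List Bool) × TT) × ℕ) :=
    ((hd.pair tk_comp).pair hb).pair Computable.snd
  have ht : Computable fun x : List Bool × ℕ =>
      tabB (tb m c x.2) (dtab (Dm δ u x.1) (NC c x.2)) (tk x.1 x.2) x.2 :=
    Computable.comp (f := fun x : ((List Bool × List Bool) × TT) × ℕ =>
        tabB x.1.2 x.1.1.1 x.1.1.2 x.2)
      (g := fun x : List Bool × ℕ =>
        ((((dtab (Dm δ u x.1) (NC c x.2), tk x.1 x.2), tb m c x.2), x.2) :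
          ((List Bool × List Bool) × TT) × ℕ))
      primrec_tabB.to_comp hg
  have h0 : Computable fun l : List (List ℕ) => l.getD 0 [] :=
    ((Primrec.list_getD []).comp Primrec.id (Primrec.const 0)).to_comp
  exact Computable.comp (f := fun l : List (List ℕ) => l.getD 0 [])
    (g := fun x : List Bool × ℕ => tabB (tb m c x.2) (dtab (Dm δ u x.1) (NC c x.2)) (tk x.1 x.2) x.2)
    h0 ht

theorem idx_S1 : S1 fun x : List Bool × ℕ => (x.2 % 2 = 0 ∧ x.1[x.2 / 2]? = some true) ∨
      (x.2 % 2 = 1 ∧ ∃ s, Mm c u s = x.1.length ∧ x.2 / 2 ∈ Am m c δ u x.1 s) := by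
  have hmod : Primrec fun x : List Bool × ℕ => x.2 % 2 :=
    Primrec.nat_mod.comp Primrec.snd (Primrec.const 2)
  have hdiv : Primrec fun x : List Bool × ℕ => x.2 / 2 :=
    Primrec.nat_div.comp Primrec.snd (Primrec.const 2)
  refine S1.or (S1.of_prim (PrimrecPred.and ?_ ?_)) (S1.and (S1.of_prim ?_) (S1.ex
    (p := fun (x : List Bool × ℕ) (s : ℕ) => Mm c u s = x.1.length ∧ x.2 / 2 ∈ Am m c δ u x.1 s)
    (S1.and ?_ ?_)))
  · exact Primrec.eq.comp hmod (Primrec.const 0)
  · exact Primrec.eq.comp (Primrec.list_getElem?.comp Primrec.fst hdiv) (Primrec.const (some true))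
  · exact Primrec.eq.comp hmod (Primrec.const 1)
  · have h3 : S1 fun y : ℕ × ℕ => y.1 = y.2 :=
      S1.of_prim (Primrec.eq.comp Primrec.fst Primrec.snd)
    have h4 : Computable fun x : (List Bool × ℕ) × ℕ => Mm c u x.2 :=
      Computable.comp (f := fun s : ℕ => Mm c u s) (g := fun x : (List Bool × ℕ) × ℕ => x.2)
        (Mm_comp hcc hu) Computable.snd
    exact h3.comp_computable (f := fun x : (List Bool × ℕ) × ℕ => (Mm c u x.2, x.1.1.length))
      (h4.pair (Primrec.list_length.comp (Primrec.fst.comp Primrec.fst)).to_comp)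
  · have hmm : S1 fun y : ℕ × List ℕ => y.1 ∈ y.2 := S1.of_prim t37_mem
    have h4 : Computable fun x : (List Bool × ℕ) × ℕ => Am m c δ u x.1.1 x.2 :=
      Computable.comp (f := fun x : List Bool × ℕ => Am m c δ u x.1 x.2)
        (g := fun x : (List Bool × ℕ) × ℕ => ((x.1.1, x.2) : List Bool × ℕ))
        (Am_comp hm hcc hδ hu) ((Computable.fst.comp Computable.fst).pair Computable.snd)
    exact hmm.comp_computable (f := fun x : (List Bool × ℕ) × ℕ => (x.1.2 / 2, Am m c δ u x.1.1 x.2))
      (((hdiv.comp Primrec.fst).to_comp).pair h4)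

theorem exists_index' (hT : IsAct m c T) (hc : ∀ k X n, T k X n = δ k n (pre X (u k n))) :
    ∃ e : ℕ, ∀ X : ℕ → Bool, WE X e = {x | WB c T X x = true} := by
  have hE := idx_S1 hm hcc hδ hu
  obtain ⟨cd, hcd⟩ := Nat.Partrec.Code.exists_code.1 hE.re
  refine ⟨encode cd, fun X => ?_⟩
  ext q
  simp only [WE, Set.mem_ofPred_eq, Denumerable.ofNat_encode]
  have h1 : (∃ k : ℕ, (cd.eval (encode ((List.range k).map X, q))).Dom) ↔
      ∃ k : ℕ, (q % 2 = 0 ∧ (pre X k)[q / 2]? = some true) ∨
      (q % 2 = 1 ∧ ∃ s, Mm c u s = (pre X k).length ∧ q / 2 ∈ Am m c δ u (pre X k) s) := by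
    refine exists_congr fun k => ?_
    rw [hcd]
    simp [Part.assert, pre]
  rw [h1]
  have h2 : ∀ k : ℕ, (pre X k)[q / 2]? = some true ↔ q / 2 < k ∧ X (q / 2) = true := by
    intro k
    unfold pre
    rw [List.getElem?_map]
    by_cases hk : q / 2 < k
    · rw [List.getElem?_eq_getElem (by simpa using hk)]
      simp [hk]
    · rw [List.getElem?_eq_none (by simpa using hk)]
      simp [hk]
  have h5 : WB c T X q = true ↔
      (if q % 2 = 0 then X (q / 2) = true else ∃ s, q / 2 ∈ A c T s X) := by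
    unfold WB
    split_ifs
    · exact Iff.rfl
    · simp only [decide_eq_true_eq]
  rw [h5]
  constructor
  · rintro ⟨k, ⟨h3, h4⟩ | ⟨h3, s, h6, h4⟩⟩
    · rw [if_pos h3]
      exact ((h2 k).1 h4).2
    · rw [if_neg (by omega)]
      rw [length_pre] at h6
      rw [← h6, Am_eq hT hc] at h4
      exact ⟨s, h4⟩
  · intro h
    by_cases h3 : q % 2 = 0
    · rw [if_pos h3] at h
      exact ⟨q / 2 + 1, Or.inl ⟨h3, (h2 _).2 ⟨by omega, h⟩⟩⟩
    · rw [if_neg h3] at h
      obtain ⟨s, hs⟩ := h
      refine ⟨Mm c u s, Or.inr ⟨by omega, s, by rw [length_pre], ?_⟩⟩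
      rw [Am_eq hT hc]
      exact hs

theorem Op_le_jump (hT : IsAct m c T) (hc : ∀ k X n, T k X n = δ k n (pre X (u k n)))
    (X : ℕ → Bool) : TLe (WB c T X) (jump X) := by
  obtain ⟨e, he⟩ := exists_index' hm hcc hδ hu hT hc
  have h0 : SI X fun m : ℕ => WB c T X m = true := by
    have h1 : SI X fun m : ℕ => m ∈ WE X e := SI.iff_ceIn.1 (ceIn_iff_exists_WE.2 ⟨e, rfl⟩)
    refine h1.of_eq fun m => ?_
    rw [he X]
    exact Iff.rfl
  rw [tLe_iff_SI]
  obtain ⟨h2, h3⟩ := h0.decide_jump
  have h4 : SI (jump X) fun x : ℕ × Bool =>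
      (WB c T X x.1 = true ∧ x.2 = true) ∨ (¬ WB c T X x.1 = true ∧ x.2 = false) := by
    refine SI.or (SI.and (h2.comp Primrec.fst) (SI.of_prim ?_))
      (SI.and (h3.comp (f := fun x : ℕ × Bool => x.1) Primrec.fst) (SI.of_prim ?_))
    · exact Primrec.eq.comp Primrec.snd (Primrec.const true)
    · exact Primrec.eq.comp Primrec.snd (Primrec.const false)
  refine h4.of_eq fun x => ?_
  rcases x with ⟨n, b⟩
  cases b <;> simp

omit hm hcc hδ hu in
theorem En_key (hT : IsAct m c T) (hc : ∀ k X n, T k X n = δ k n (pre X (u k n)))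
    (X : ℕ → Bool) (e s : ℕ) :
    En s e e (jn (ext (tk (pre X (Mm c u s)) s)) (Am m c δ u (pre X (Mm c u s)) s)) ↔
      En s e e (jn X (A c T s X)) := by
  have hs : s ≤ Mm c u s := Nat.le_add_right _ _
  rw [Am_eq hT hc, tk_pre hs]
  exact t42_En_congr fun i hi => t42_jn _ hi

theorem low' (hT : IsAct m c T) (hc : ∀ k X n, T k X n = δ k n (pre X (u k n)))
    (X : ℕ → Bool) : TLe (jump (WB c T X)) (jump X) := by
  have hcm : Computable fun y : (ℕ × ℕ) × List Bool =>
      (((y.1.2, y.1.1, y.1.1), tk y.2 y.1.2, Am m c δ u y.2 y.1.2) :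
        (ℕ × ℕ × ℕ) × List Bool × List ℕ) := by
    have h1 : Computable fun y : (ℕ × ℕ) × List Bool => ((y.1.2, y.1.1, y.1.1) : ℕ × ℕ × ℕ) :=
      ((Primrec.snd.comp Primrec.fst).pair
        ((Primrec.fst.comp Primrec.fst).pair (Primrec.fst.comp Primrec.fst))).to_comp
    have h2 : Computable fun y : (ℕ × ℕ) × List Bool => ((y.2, y.1.2) : List Bool × ℕ) :=
      Computable.snd.pair (Computable.snd.comp Computable.fst)
    have h3 : Computable fun y : (ℕ × ℕ) × List Bool => tk y.2 y.1.2 :=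
      Computable.comp (f := fun x : List Bool × ℕ => tk x.1 x.2)
        (g := fun y : (ℕ × ℕ) × List Bool => ((y.2, y.1.2) : List Bool × ℕ)) tk_comp h2
    have h4 : Computable fun y : (ℕ × ℕ) × List Bool => Am m c δ u y.2 y.1.2 :=
      Computable.comp (f := fun x : List Bool × ℕ => Am m c δ u x.1 x.2)
        (g := fun y : (ℕ × ℕ) × List Bool => ((y.2, y.1.2) : List Bool × ℕ)) (Am_comp hm hcc hδ hu) h2
    exact h1.pair (h3.pair h4)
  have hf : Computable fun x : ℕ × ℕ => Mm c u x.2 :=
    Computable.comp (f := fun s : ℕ => Mm c u s) (g := fun x : ℕ × ℕ => x.2)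
      (Mm_comp hcc hu) Computable.snd
  have h1 : SI X fun x : ℕ × ℕ => En x.2 x.1 x.1 (jn X (A c T x.2 X)) := by
    have hP := (S1.of_prim primrec_En).comp_computable hcm
    exact (gen (X := X) hf hP).of_eq fun x => En_key hT hc X x.1 x.2
  have h2 : SI X fun x : ℕ × ℕ => ¬ En x.2 x.1 x.1 (jn X (A c T x.2 X)) := by
    have hP := (S1.of_prim (PrimrecPred.not primrec_En)).comp_computable hcm
    exact (gen (X := X) hf hP).of_eq fun x => not_congr (En_key hT hc X x.1 x.2)
  exact tLe_jump_of_limit (p := fun e s => En s e e (jn X (A c T s X))) h1 h2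
    (fun e he => jump_true X e he) (fun e he => jump_false hT X e he)

omit hm hcc in
theorem T_le (hc : ∀ k X n, T k X n = δ k n (pre X (u k n))) (X : ℕ → Bool) (k : ℕ) :
    TLe (T k X) X := by
  have h : T k X = Fam δ u X k := by
    funext n
    rw [hc]
    rfl
  rw [h]
  exact Fam_le hδ hu X k

end comp

def hh (b : ℕ) (L : List Bool) (p : ℕ × Bool × Bool) : Bool :=
  if p.1 % 2 = 0 then p.2.2 else if p.1 / 2 < b then L.getD (p.1 / 2) false else p.2.1

theorem hh_comp (b : ℕ) (L : List Bool) : Computable (hh b L) := by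
  have hdiv : Primrec (fun p : ℕ × Bool × Bool => p.1 / 2) :=
    Primrec.nat_div.comp Primrec.fst (Primrec.const 2)
  have h1 : PrimrecPred (fun p : ℕ × Bool × Bool => p.1 % 2 = 0) :=
    PrimrecRel.comp Primrec.eq (Primrec.nat_mod.comp Primrec.fst (Primrec.const 2))
      (Primrec.const 0)
  have h2 : PrimrecPred (fun p : ℕ × Bool × Bool => p.1 / 2 < b) :=
    PrimrecRel.comp Primrec.nat_lt hdiv (Primrec.const b)
  have h3 : Primrec (fun p : ℕ × Bool × Bool => p.2.2) := Primrec.snd.comp Primrec.snd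
  have h5 : Primrec (fun p : ℕ × Bool × Bool => L.getD (p.1 / 2) false) :=
    (Primrec.list_getD false).comp (Primrec.const L) hdiv
  have h6 : Primrec (fun p : ℕ × Bool × Bool => p.2.1) := Primrec.fst.comp Primrec.snd
  exact (Primrec.ite h1 h3 (Primrec.ite h2 h5 h6)).to_comp

theorem le_WB (X : ℕ → Bool) : TLe X (WB c T X) := by
  have hf : Computable fun n : ℕ => 2 * n :=
    (Primrec.nat_mul.comp (Primrec.const 2) Primrec.id).to_comp
  refine tLe_of_computable hf fun n => ?_
  simp [WB]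

theorem not_WB_le (hT : IsAct m c T) (X : ℕ → Bool) : ¬ TLe (WB c T X) X := by
  intro h
  have h1 : SI X (fun x : ℕ × Bool => WB c T X x.1 = x.2) := tLe_iff_SI.1 h
  have hf : Primrec (fun z : ℕ => ((2 * z + 1, false) : ℕ × Bool)) := by
    refine Primrec.pair ?_ (Primrec.const false)
    exact Primrec.nat_add.comp (Primrec.nat_mul.comp (Primrec.const 2) Primrec.id) (Primrec.const 1)
  have h2 : SI X (fun z : ℕ => WB c T X (2 * z + 1) = false) := h1.comp hf
  have h3 : SI X (fun z : ℕ => z ∈ {z | ¬ ∃ s, z ∈ A c T s X}) := by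
    refine h2.of_eq fun z => ?_
    rw [Set.mem_ofPred_eq, ← WB_odd, Bool.not_eq_true]
  obtain ⟨n, hn⟩ := ceIn_iff_exists_WE.1 (SI.iff_ceIn.2 h3)
  obtain ⟨z, hz, s, hs⟩ := simple hT X n (by rw [← hn]; exact coinfinite hT X)
  rw [← hn] at hz
  exact hz ⟨s, hs⟩

theorem WB_T_le (hT : IsAct m c T) (k : ℕ) (X : ℕ → Bool) (hk : TLe (T k X) (WB c T X)) :
    TLe (WB c T (T k X)) (WB c T X) := by
  classical
  obtain ⟨b, hb⟩ := almost_equal hT X k
  let L : List Bool := (List.range b).map (fun z => decide (∃ s, z ∈ A c T s (T k X)))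
  have hk1 : TLe (fun m => T k X (m / 2)) (T k X) :=
    tLe_of_computable (f := fun m : ℕ => m / 2)
      (Primrec.nat_div.comp Primrec.id (Primrec.const 2)).to_comp (fun n => rfl)
  have hk2 : TLe (fun m => T k X (m / 2)) (WB c T X) := TuringReducible.trans hk1 hk
  refine tLe_of_fun2 (hh_comp b L) (TuringReducible.refl _) hk2 (fun m => ?_)
  unfold hh
  rcases Nat.even_or_odd' m with ⟨n, rfl | rfl⟩
  · rw [WB_even, WB_even]
    have h1 : (2 * n) % 2 = 0 := by omega
    have h2 : (2 * n) / 2 = n := by omega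
    simp only [h1, h2, if_true]
  · have h1 : (2 * n + 1) % 2 = 1 := by omega
    have h2 : (2 * n + 1) / 2 = n := by omega
    simp only [h1, h2]
    rw [if_neg (by norm_num)]
    by_cases hn : n < b
    · rw [if_pos hn]
      have h3 : L.getD n false = decide (∃ s, n ∈ A c T s (T k X)) := by
        simp [L, List.getD_eq_getElem?_getD, hn]
      rw [h3]
      have := WB_odd (c := c) (T := T) (T k X) n
      by_cases h4 : ∃ s, n ∈ A c T s (T k X)
      · rw [this.2 h4]; simp [h4]
      · have h5 : WB c T (T k X) (2 * n + 1) ≠ true := fun h => h4 (this.1 h)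
        have h6 : WB c T (T k X) (2 * n + 1) = false := by
          cases hh : WB c T (T k X) (2 * n + 1) with
          | false => rfl
          | true => exact absurd hh h5
        rw [h6]; simp [h4]
    · rw [if_neg hn]
      have h3 := hb n (by omega)
      have h4 := WB_odd (c := c) (T := T) (T k X) n
      have h5 := WB_odd (c := c) (T := T) X n
      have h6 : WB c T (T k X) (2 * n + 1) = true ↔ WB c T X (2 * n + 1) = true := by
        rw [h4, h5]; exact h3.symm
      exact Bool.eq_iff_iff.2 h6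

theorem chr_WB' (X : ℕ → Bool) : chr {m | WB c T X m = true} = WB c T X := by
  funext m
  simp [chr]

theorem main_act (hT : IsAct m c T) (hc : ∀ k X n, T k X n = δ k n (pre X (u k n)))
    (hm : Computable₂ m) (hcc : Computable c)
    (hδ : Computable fun x : (ℕ × ℕ) × List Bool => δ x.1.1 x.1.2 x.2)
    (hu : Computable₂ u) :
    ∃ e : ℕ, PostIndex e ∧ ∀ (k : ℕ) (X : ℕ → Bool),
      TLe (chr (WE X e)) (chr (WE (T k X) e)) ∧ TLe (chr (WE (T k X) e)) (chr (WE X e)) := by
  obtain ⟨e, he⟩ := exists_index' hm hcc hδ hu hT hc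
  have key : ∀ (k : ℕ) (X : ℕ → Bool), TLe (WB c T (T k X)) (WB c T X) := fun k X =>
    WB_T_le hT k X (TuringReducible.trans (T_le hδ hu hc X k) (le_WB X))
  refine ⟨e, fun X => ?_, fun k X => ?_⟩
  · rw [he X, chr_WB']
    exact ⟨le_WB X, not_WB_le hT X, Op_le_jump hm hcc hδ hu hT hc X,
      fun h => not_jump_le _ (TuringReducible.trans (low' hm hcc hδ hu hT hc X) h),
      low' hm hcc hδ hu hT hc X⟩
  · rw [he X, he (T k X), chr_WB', chr_WB']
    refine ⟨?_, key k X⟩
    obtain ⟨n, hn⟩ := hT.unb k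
    obtain ⟨i, -, hi⟩ := hT.inv n k hn
    have := key i (T k X)
    rwa [hi] at this

end Pool.Agent.H869R3.LF
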