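import Pool.Agent.H869R3.LF.Comb

set_option autoImplicit false

/-!
The construction on finite data, with tables for the group. Adapted from `Pool.Agent.H548R2.Post`.
-/

namespace Pool.Agent.H869R3.LF

open Encodable Pool.Agent.Helper227
open Pool.Agent.H548R2.Post (hlt En res jn ext mX pX pJ enB resB primrec_enB primrec_resB t26_find)
open Nat.Partrec (Code)

/-- the type of the tables for the multiplication, the orders of the finite subgroups and the
bounds -/
abbrev TT : Type := List ℕ × List ℕ × List ℕ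

def mt (t : TT) (j k : ℕ) : ℕ := t.1.getD (Nat.pair j k) 0

def ct (t : TT) (n : ℕ) : ℕ := t.2.1.getD n 0

def gt (t : TT) (n : ℕ) : ℕ := t.2.2.getD n 0

def goodB (t : TT) (d σ : List Bool) (V : List (List ℕ)) (s n k z : ℕ) : Bool :=
  decide (gt t n ≤ z) &&
  (List.range n).all (fun e => (List.range (ct t n)).all (fun j =>
    decide (resB s e d σ (mt t j k) (V.getD (mt t j k) []) ≤ z))) &&
  (List.range (ct t n)).any (fun j => enB s n z d σ (mt t j k) &&
    (V.getD (mt t j k) []).all (fun y => !enB s n y d σ (mt t j k)))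

def actB (t : TT) (d σ : List Bool) (V : List (List ℕ)) (s n k : ℕ) : Option ℕ :=
  (List.range s).find? (goodB t d σ V s n k)

def stepB (t : TT) (d σ : List Bool) (V : List (List ℕ)) (s : ℕ) : List (List ℕ) :=
  (List.range (ct t σ.length)).map
    (fun k => V.getD k [] ++ (List.range s).filterMap (fun n => actB t d σ V s n k))

def tabB (t : TT) (d σ : List Bool) : ℕ → List (List ℕ)
  | 0 => []
  | s + 1 => stepB t d σ (tabB t d σ s) s

theorem mt_prim : Primrec fun x : TT × ℕ × ℕ => mt x.1 x.2.1 x.2.2 :=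
  (Primrec.list_getD 0).comp (Primrec.fst.comp Primrec.fst)
    (Primrec₂.natPair.comp (Primrec.fst.comp Primrec.snd) (Primrec.snd.comp Primrec.snd))

theorem ct_prim : Primrec fun x : TT × ℕ => ct x.1 x.2 :=
  (Primrec.list_getD 0).comp (Primrec.fst.comp (Primrec.snd.comp Primrec.fst)) Primrec.snd

theorem gt_prim : Primrec fun x : TT × ℕ => gt x.1 x.2 :=
  (Primrec.list_getD 0).comp (Primrec.snd.comp (Primrec.snd.comp Primrec.fst)) Primrec.snd

/-- The type of the arguments `((d, σ), V), (s, n, k), z`. -/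
abbrev T25X : Type := ((List Bool × List Bool) × TT × List (List ℕ)) × (ℕ × ℕ × ℕ) × ℕ

section proj

theorem t25_d : Primrec fun x : T25X => x.1.1.1 :=
  Primrec.fst.comp (Primrec.fst.comp Primrec.fst)

theorem t25_g : Primrec fun x : T25X => x.1.1.2 :=
  Primrec.snd.comp (Primrec.fst.comp Primrec.fst)

theorem t25_V : Primrec fun x : T25X => x.1.2.2 :=
  Primrec.snd.comp (Primrec.snd.comp Primrec.fst)

theorem t25_t : Primrec fun x : T25X => x.1.2.1 :=
  Primrec.fst.comp (Primrec.snd.comp Primrec.fst)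

theorem t25_s : Primrec fun x : T25X => x.2.1.1 :=
  Primrec.fst.comp (Primrec.fst.comp Primrec.snd)

theorem t25_n : Primrec fun x : T25X => x.2.1.2.1 :=
  Primrec.fst.comp (Primrec.snd.comp (Primrec.fst.comp Primrec.snd))

theorem t25_k : Primrec fun x : T25X => x.2.1.2.2 :=
  Primrec.snd.comp (Primrec.snd.comp (Primrec.fst.comp Primrec.snd))

theorem t25_z : Primrec fun x : T25X => x.2.2 :=
  Primrec.snd.comp Primrec.snd

end proj

theorem t25_ct : Primrec fun x : T25X => ct x.1.2.1 x.2.1.2.1 :=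
  ct_prim.comp (f := fun x : TT × ℕ => ct x.1 x.2) (g := fun x : T25X => (x.1.2.1, x.2.1.2.1))
    (t25_t.pair t25_n)

theorem t25_gt : Primrec fun x : T25X => gt x.1.2.1 x.2.1.2.1 :=
  gt_prim.comp (f := fun x : TT × ℕ => gt x.1 x.2) (g := fun x : T25X => (x.1.2.1, x.2.1.2.1))
    (t25_t.pair t25_n)

/-- the class function -/
theorem t25_cl : Primrec fun y : T25X × ℕ => mt y.1.1.2.1 y.2 y.1.2.1.2.2 :=
  mt_prim.comp (f := fun x : TT × ℕ × ℕ => mt x.1 x.2.1 x.2.2)
    (g := fun y : T25X × ℕ => (y.1.1.2.1, (y.2, y.1.2.1.2.2)))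
    ((t25_t.comp Primrec.fst).pair (Primrec.snd.pair (t25_k.comp Primrec.fst)))

/-- the list of the class -/
theorem t25_Vc : Primrec fun y : T25X × ℕ => y.1.1.2.2.getD (mt y.1.1.2.1 y.2 y.1.2.1.2.2) [] :=
  (Primrec.list_getD ([] : List ℕ)).comp (t25_V.comp Primrec.fst) t25_cl

/-- part one -/
theorem t25_p1 : PrimrecPred fun x : T25X => gt x.1.2.1 x.2.1.2.1 ≤ x.2.2 :=
  Primrec.nat_le.comp t25_gt t25_z

/-- the restraint inequality -/
theorem t25_res : PrimrecPred fun y : (T25X × ℕ) × ℕ =>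
    resB y.1.1.2.1.1 y.1.2 y.1.1.1.1.1 y.1.1.1.1.2 (mt y.1.1.1.2.1 y.2 y.1.1.2.1.2.2)
      (y.1.1.1.2.2.getD (mt y.1.1.1.2.1 y.2 y.1.1.2.1.2.2) []) ≤ y.1.1.2.2 := by
  have hcl : Primrec fun y : (T25X × ℕ) × ℕ => mt y.1.1.1.2.1 y.2 y.1.1.2.1.2.2 :=
    t25_cl.comp (f := fun y : T25X × ℕ => mt y.1.1.2.1 y.2 y.1.2.1.2.2)
      (g := fun y : (T25X × ℕ) × ℕ => (y.1.1, y.2))
      ((Primrec.fst.comp Primrec.fst).pair Primrec.snd)
  have hV : Primrec fun y : (T25X × ℕ) × ℕ =>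
      y.1.1.1.2.2.getD (mt y.1.1.1.2.1 y.2 y.1.1.2.1.2.2) [] :=
    t25_Vc.comp (f := fun y : T25X × ℕ => y.1.1.2.2.getD (mt y.1.1.2.1 y.2 y.1.2.1.2.2) [])
      (g := fun y : (T25X × ℕ) × ℕ => (y.1.1, y.2))
      ((Primrec.fst.comp Primrec.fst).pair Primrec.snd)
  have hX : Primrec fun y : (T25X × ℕ) × ℕ => y.1.1 := Primrec.fst.comp Primrec.fst
  have hr : Primrec fun y : (T25X × ℕ) × ℕ =>
      resB y.1.1.2.1.1 y.1.2 y.1.1.1.1.1 y.1.1.1.1.2 (mt y.1.1.1.2.1 y.2 y.1.1.2.1.2.2)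
        (y.1.1.1.2.2.getD (mt y.1.1.1.2.1 y.2 y.1.1.2.1.2.2) []) :=
    primrec_resB.comp
      (f := fun x : (List Bool × List Bool) × (ℕ × ℕ) × ℕ × List ℕ =>
        resB x.2.1.1 x.2.1.2 x.1.1 x.1.2 x.2.2.1 x.2.2.2)
      (g := fun y : (T25X × ℕ) × ℕ =>
        ((y.1.1.1.1.1, y.1.1.1.1.2), ((y.1.1.2.1.1, y.1.2),
          (mt y.1.1.1.2.1 y.2 y.1.1.2.1.2.2,
            y.1.1.1.2.2.getD (mt y.1.1.1.2.1 y.2 y.1.1.2.1.2.2) []))))
      (((t25_d.comp hX).pair (t25_g.comp hX)).pair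
        (((t25_s.comp hX).pair (Primrec.snd.comp Primrec.fst)).pair (hcl.pair hV)))
  exact Primrec.nat_le.comp hr (t25_z.comp hX)

/-- part two -/
theorem t25_p2 : PrimrecPred fun x : T25X =>
    ∀ e < x.2.1.2.1, ∀ j < ct x.1.2.1 x.2.1.2.1,
      resB x.2.1.1 e x.1.1.1 x.1.1.2 (mt x.1.2.1 j x.2.1.2.2)
        (x.1.2.2.getD (mt x.1.2.1 j x.2.1.2.2) []) ≤ x.2.2 := by
  refine PP.all_lt (α := T25X) (f := fun x => x.2.1.2.1)
    (p := fun x e => ∀ j < ct x.1.2.1 x.2.1.2.1,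
      resB x.2.1.1 e x.1.1.1 x.1.1.2 (mt x.1.2.1 j x.2.1.2.2)
        (x.1.2.2.getD (mt x.1.2.1 j x.2.1.2.2) []) ≤ x.2.2) ?_ t25_n
  refine PP.all_lt (α := T25X × ℕ) (f := fun y => ct y.1.1.2.1 y.1.2.1.2.1)
    (p := fun y j => resB y.1.2.1.1 y.2 y.1.1.1.1 y.1.1.1.2 (mt y.1.1.2.1 j y.1.2.1.2.2)
        (y.1.1.2.2.getD (mt y.1.1.2.1 j y.1.2.1.2.2) []) ≤ y.1.2.2) t25_res ?_
  exact t25_ct.comp Primrec.fst

/-- enumeration of `z` -/
theorem t25_en : Primrec fun y : T25X × ℕ =>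
    enB y.1.2.1.1 y.1.2.1.2.1 y.1.2.2 y.1.1.1.1 y.1.1.1.2 (mt y.1.1.2.1 y.2 y.1.2.1.2.2) :=
  primrec_enB.comp
    (f := fun x : (List Bool × List Bool) × ℕ × ℕ × ℕ × ℕ =>
      enB x.2.1 x.2.2.1 x.2.2.2.1 x.1.1 x.1.2 x.2.2.2.2)
    (g := fun y : T25X × ℕ =>
      ((y.1.1.1.1, y.1.1.1.2), (y.1.2.1.1, (y.1.2.1.2.1, (y.1.2.2,
        mt y.1.1.2.1 y.2 y.1.2.1.2.2)))))
    (((t25_d.comp Primrec.fst).pair (t25_g.comp Primrec.fst)).pair
      ((t25_s.comp Primrec.fst).pair ((t25_n.comp Primrec.fst).pair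
        ((t25_z.comp Primrec.fst).pair t25_cl))))

/-- enumeration of a member `w` -/
theorem t25_en' : PrimrecPred fun y : (T25X × ℕ) × ℕ =>
    enB y.1.1.2.1.1 y.1.1.2.1.2.1 y.2 y.1.1.1.1.1 y.1.1.1.1.2
      (mt y.1.1.1.2.1 y.1.2 y.1.1.2.1.2.2) = false := by
  have h : Primrec fun y : (T25X × ℕ) × ℕ =>
      enB y.1.1.2.1.1 y.1.1.2.1.2.1 y.2 y.1.1.1.1.1 y.1.1.1.1.2
        (mt y.1.1.1.2.1 y.1.2 y.1.1.2.1.2.2) :=
    primrec_enB.comp
      (f := fun x : (List Bool × List Bool) × ℕ × ℕ × ℕ × ℕ =>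
        enB x.2.1 x.2.2.1 x.2.2.2.1 x.1.1 x.1.2 x.2.2.2.2)
      (g := fun y : (T25X × ℕ) × ℕ =>
        ((y.1.1.1.1.1, y.1.1.1.1.2), (y.1.1.2.1.1, (y.1.1.2.1.2.1, (y.2,
          mt y.1.1.1.2.1 y.1.2 y.1.1.2.1.2.2)))))
      (((t25_d.comp (Primrec.fst.comp Primrec.fst)).pair
          (t25_g.comp (Primrec.fst.comp Primrec.fst))).pair
        ((t25_s.comp (Primrec.fst.comp Primrec.fst)).pair
          ((t25_n.comp (Primrec.fst.comp Primrec.fst)).pair
            (Primrec.snd.pair (t25_cl.comp Primrec.fst)))))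
  exact Primrec.primrecPred
    (p := fun y : (T25X × ℕ) × ℕ =>
      enB y.1.1.2.1.1 y.1.1.2.1.2.1 y.2 y.1.1.1.1.1 y.1.1.1.1.2
        (mt y.1.1.1.2.1 y.1.2 y.1.1.2.1.2.2) = false)
    ((Primrec.not.comp h).of_eq (fun y => by
      cases enB y.1.1.2.1.1 y.1.1.2.1.2.1 y.2 y.1.1.1.1.1 y.1.1.1.1.2
        (mt y.1.1.1.2.1 y.1.2 y.1.1.2.1.2.2) <;> simp))

/-- part three -/
theorem t25_p3 : PrimrecPred fun x : T25X =>
    ∃ j < ct x.1.2.1 x.2.1.2.1,
      enB x.2.1.1 x.2.1.2.1 x.2.2 x.1.1.1 x.1.1.2 (mt x.1.2.1 j x.2.1.2.2) = true ∧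
      ∀ y ∈ x.1.2.2.getD (mt x.1.2.1 j x.2.1.2.2) [],
        enB x.2.1.1 x.2.1.2.1 y x.1.1.1 x.1.1.2 (mt x.1.2.1 j x.2.1.2.2) = false := by
  refine PP.ex_lt (α := T25X) (f := fun x => ct x.1.2.1 x.2.1.2.1)
    (p := fun x j =>
      enB x.2.1.1 x.2.1.2.1 x.2.2 x.1.1.1 x.1.1.2 (mt x.1.2.1 j x.2.1.2.2) = true ∧
      ∀ y ∈ x.1.2.2.getD (mt x.1.2.1 j x.2.1.2.2) [],
        enB x.2.1.1 x.2.1.2.1 y x.1.1.1 x.1.1.2 (mt x.1.2.1 j x.2.1.2.2) = false) ?_
    t25_ct
  have h1 : PrimrecPred fun y : T25X × ℕ =>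
      enB y.1.2.1.1 y.1.2.1.2.1 y.1.2.2 y.1.1.1.1 y.1.1.1.2
        (mt y.1.1.2.1 y.2 y.1.2.1.2.2) = true :=
    Primrec.primrecPred
      (p := fun y : T25X × ℕ => enB y.1.2.1.1 y.1.2.1.2.1 y.1.2.2 y.1.1.1.1 y.1.1.1.2
        (mt y.1.1.2.1 y.2 y.1.2.1.2.2) = true)
      (t25_en.of_eq (fun y => by simp))
  have h2 : PrimrecPred fun y : T25X × ℕ =>
      ∀ w ∈ y.1.1.2.2.getD (mt y.1.1.2.1 y.2 y.1.2.1.2.2) [],
        enB y.1.2.1.1 y.1.2.1.2.1 w y.1.1.1.1 y.1.1.1.2
          (mt y.1.1.2.1 y.2 y.1.2.1.2.2) = false :=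
    PP.all_mem (α := T25X × ℕ)
      (f := fun y => y.1.1.2.2.getD (mt y.1.1.2.1 y.2 y.1.2.1.2.2) [])
      (p := fun y w => enB y.1.2.1.1 y.1.2.1.2.1 w y.1.1.1.1 y.1.1.1.2
          (mt y.1.1.2.1 y.2 y.1.2.1.2.2) = false) t25_en' t25_Vc
  exact PrimrecPred.and h1 h2

theorem primrec_goodB : Primrec fun x : ((List Bool × List Bool) × TT × List (List ℕ)) ×
    (ℕ × ℕ × ℕ) × ℕ =>
    goodB x.1.2.1 x.1.1.1 x.1.1.2 x.1.2.2 x.2.1.1 x.2.1.2.1 x.2.1.2.2 x.2.2 := by
  classical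
  refine (PrimrecPred.decide ((t25_p1.and t25_p2).and t25_p3)).of_eq (fun x => ?_)
  rw [goodB, Bool.eq_iff_iff]
  simp only [decide_eq_true_eq, List.any_eq_true, List.all_eq_true, List.mem_range,
    Bool.and_eq_true, Bool.not_eq_true']

theorem primrec_actB : Primrec fun x : ((List Bool × List Bool) × TT × List (List ℕ)) × ℕ × ℕ × ℕ =>
    actB x.1.2.1 x.1.1.1 x.1.1.2 x.1.2.2 x.2.1 x.2.2.1 x.2.2.2 := by
  have hm : Primrec fun y : (((List Bool × List Bool) × TT × List (List ℕ)) × ℕ × ℕ × ℕ) × ℕ =>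
      (y.1.1, y.1.2, y.2) :=
    Primrec.pair (Primrec.fst.comp Primrec.fst)
      (Primrec.pair (Primrec.snd.comp Primrec.fst) Primrec.snd)
  have hp : Primrec₂ fun (x : ((List Bool × List Bool) × TT × List (List ℕ)) × ℕ × ℕ × ℕ) (z : ℕ) =>
      goodB x.1.2.1 x.1.1.1 x.1.1.2 x.1.2.2 x.2.1 x.2.2.1 x.2.2.2 z := primrec_goodB.comp hm
  exact t26_find (Primrec.fst.comp Primrec.snd) hp

theorem primrec_stepB : Primrec fun x : ((List Bool × List Bool) × TT × List (List ℕ)) × ℕ =>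
    stepB x.1.2.1 x.1.1.1 x.1.1.2 x.1.2.2 x.2 := by
  unfold stepB
  refine Primrec.list_map
    (f := fun x : ((List Bool × List Bool) × TT × List (List ℕ)) × ℕ =>
      List.range (ct x.1.2.1 x.1.1.2.length))
    (g := fun (x : ((List Bool × List Bool) × TT × List (List ℕ)) × ℕ) (k : ℕ) =>
      x.1.2.2.getD k [] ++ (List.range x.2).filterMap
        (fun n => actB x.1.2.1 x.1.1.1 x.1.1.2 x.1.2.2 x.2 n k)) ?_ ?_
  · exact Primrec.list_range.comp (ct_prim.comp (f := fun x : TT × ℕ => ct x.1 x.2)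
      (g := fun x : ((List Bool × List Bool) × TT × List (List ℕ)) × ℕ =>
        (x.1.2.1, x.1.1.2.length))
      ((Primrec.fst.comp (Primrec.snd.comp Primrec.fst)).pair
        (Primrec.list_length.comp (Primrec.snd.comp (Primrec.fst.comp Primrec.fst)))))
  · refine Primrec.list_append.comp
      (g := fun p : (((List Bool × List Bool) × TT × List (List ℕ)) × ℕ) × ℕ => p.1.1.2.2.getD p.2 [])
      (h := fun p : (((List Bool × List Bool) × TT × List (List ℕ)) × ℕ) × ℕ =>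
        (List.range p.1.2).filterMap
          (fun n => actB p.1.1.2.1 p.1.1.1.1 p.1.1.1.2 p.1.1.2.2 p.1.2 n p.2)) ?_ ?_
    · exact (Primrec.list_getD []).comp
        (Primrec.snd.comp (Primrec.snd.comp (Primrec.fst.comp Primrec.fst))) Primrec.snd
    · refine Primrec.listFilterMap
        (f := fun p : (((List Bool × List Bool) × TT × List (List ℕ)) × ℕ) × ℕ => List.range p.1.2)
        (g := fun (p : (((List Bool × List Bool) × TT × List (List ℕ)) × ℕ) × ℕ) (n : ℕ) =>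
          actB p.1.1.2.1 p.1.1.1.1 p.1.1.1.2 p.1.1.2.2 p.1.2 n p.2) ?_ ?_
      · exact Primrec.list_range.comp (Primrec.snd.comp Primrec.fst)
      · have h1 : Primrec fun q : ((((List Bool × List Bool) × TT × List (List ℕ)) × ℕ) × ℕ) × ℕ =>
            (q.1.1.1, q.1.1.2, q.2, q.1.2) :=
          Primrec.pair (Primrec.fst.comp (Primrec.fst.comp Primrec.fst))
            (Primrec.pair (Primrec.snd.comp (Primrec.fst.comp Primrec.fst))
              (Primrec.pair Primrec.snd (Primrec.snd.comp Primrec.fst)))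
        have h2 := primrec_actB.comp h1
        exact h2

theorem primrec_tabB : Primrec fun x : ((List Bool × List Bool) × TT) × ℕ =>
    tabB x.1.2 x.1.1.1 x.1.1.2 x.2 := by
  have hstep : Primrec₂ fun (x : ((List Bool × List Bool) × TT) × ℕ) (y : ℕ × List (List ℕ)) =>
      stepB x.1.2 x.1.1.1 x.1.1.2 y.2 y.1 := by
    have h1 : Primrec fun z : (((List Bool × List Bool) × TT) × ℕ) × (ℕ × List (List ℕ)) =>
        ((z.1.1.1, (z.1.1.2, z.2.2)), z.2.1) :=
      Primrec.pair (Primrec.pair (Primrec.fst.comp (Primrec.fst.comp Primrec.fst))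
        (Primrec.pair (Primrec.snd.comp (Primrec.fst.comp Primrec.fst))
          (Primrec.snd.comp Primrec.snd)))
        (Primrec.fst.comp Primrec.snd)
    exact primrec_stepB.comp h1
  have h := Primrec.nat_rec' (f := fun x : ((List Bool × List Bool) × TT) × ℕ => x.2)
    (g := fun _ => ([] : List (List ℕ))) Primrec.snd (Primrec.const []) hstep
  refine h.of_eq ?_
  rintro ⟨⟨⟨d, σ⟩, t⟩, s⟩
  induction s with
  | zero => rfl
  | succ s ih =>
    change stepB t d σ _ s = stepB t d σ (tabB t d σ s) s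
    rw [← ih]

theorem t31_find {α : Type} {p q : α → Bool} :
    ∀ {l : List α}, (∀ x ∈ l, p x = q x) → l.find? p = l.find? q := by
  intro l
  induction l with
  | nil => intro _; rfl
  | cons a l ih =>
    intro h
    rw [List.find?_cons, List.find?_cons, h a List.mem_cons_self,
      ih (fun x hx => h x (List.mem_cons_of_mem _ hx))]

theorem t31_pX {T : ℕ → (ℕ → Bool) → ℕ → Bool} {X : ℕ → Bool} {d σ : List Bool} {s k t : ℕ}
    (h : ∀ i < s, mX d σ k i = T k X i) (ht : t ≤ s) :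
    pX d σ k t = pre (T k X) t := by
  unfold pX pre
  refine List.map_congr_left fun i hi => ?_
  rw [List.mem_range] at hi
  exact h i (by omega)

theorem t31_pJ {T : ℕ → (ℕ → Bool) → ℕ → Bool} {X : ℕ → Bool} {d σ : List Bool} {s k t : ℕ} {a : List ℕ}
    (h : ∀ i < s, mX d σ k i = T k X i) (ht : t ≤ s) :
    pJ d σ k a t = pre (jn (T k X) a) t := by
  unfold pJ pre jn
  refine List.map_congr_left fun i hi => ?_
  rw [List.mem_range] at hi
  by_cases h2 : i % 2 = 0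
  · rw [if_pos h2, if_pos h2]
    exact h _ (by omega)
  · rw [if_neg h2, if_neg h2]

theorem enB_iff {T : ℕ → (ℕ → Bool) → ℕ → Bool} {X : ℕ → Bool} {d σ : List Bool} {s n z k : ℕ}
    (h : ∀ i < s, mX d σ k i = T k X i) :
    enB s n z d σ k = true ↔ En s n z (T k X) := by
  unfold enB En
  rw [List.any_eq_true]
  constructor
  · rintro ⟨t, ht, h1⟩
    rw [List.mem_range] at ht
    refine ⟨t, by omega, ?_⟩
    rwa [t31_pX h (by omega)] at h1
  · rintro ⟨t, ht, h1⟩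
    refine ⟨t, List.mem_range.2 (by omega), ?_⟩
    rwa [t31_pX h ht]

theorem resB_eq {T : ℕ → (ℕ → Bool) → ℕ → Bool} {X : ℕ → Bool} {d σ : List Bool} {s e k : ℕ} {a : List ℕ}
    (h : ∀ i < s, mX d σ k i = T k X i) :
    resB s e d σ k a = res s e (jn (T k X) a) := by
  unfold resB res
  rw [t31_find (p := fun t => hlt s e e (pJ d σ k a t))
    (q := fun t => hlt s e e (pre (jn (T k X) a) t))]
  intro t ht
  rw [List.mem_range] at ht
  rw [t31_pJ h (by omega)]


variable {m : ℕ → ℕ → ℕ} {c : ℕ → ℕ}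

/-- the tables are correct up to `L` -/
structure TOk (m : ℕ → ℕ → ℕ) (c : ℕ → ℕ) (t : TT) (L : ℕ) : Prop where
  hm : ∀ j < c L, ∀ k < c L, mt t j k = m j k
  hc : ∀ n ≤ L, ct t n = c n
  hg : ∀ n ≤ L, gt t n = gb c n

theorem goodB_iff {T : ℕ → (ℕ → Bool) → ℕ → Bool} (hT : IsAct m c T) {X : ℕ → Bool} {t : TT}
    {d : List Bool} {s n k z : ℕ} {σ : List Bool}
    {V : List (List ℕ)} (ht : TOk m c t σ.length) (hn : n ≤ σ.length) (hk : k < c σ.length)
    (hN : ∀ k < c σ.length, ∀ i < s, mX d σ k i = T k X i)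
    (hV : ∀ k < c σ.length, V.getD k [] = A c T s (T k X)) :
    goodB t d σ V s n k z = true ↔ Good c T (A c T s) s n (T k X) z := by
  have hjl : ∀ j < c n, j < c σ.length := fun j hj => hj.trans_le (hT.mono _ _ hn)
  have hcl : ∀ j < c n, mt t j k < c σ.length := fun j hj => by
    rw [ht.hm j (hjl j hj) k hk]
    exact hT.mul_lt _ j k (hjl j hj) hk
  have hTT : ∀ j < c n, T (mt t j k) X = T j (T k X) := fun j hj => by
    rw [ht.hm j (hjl j hj) k hk, hT.comp]
  have h1 : ∀ e, (∀ j < c n, resB s e d σ (mt t j k) (V.getD (mt t j k) []) ≤ z) ↔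
      ∀ j < c n, res s e (jn (T j (T k X)) (A c T s (T j (T k X)))) ≤ z := by
    intro e
    refine forall_congr' fun j => forall_congr' fun hj => ?_
    rw [resB_eq (hN _ (hcl j hj)), hV _ (hcl j hj), hTT j hj]
  have h4 : (∃ j < c n, enB s n z d σ (mt t j k) = true ∧
        ∀ y ∈ V.getD (mt t j k) [], ¬ enB s n y d σ (mt t j k) = true) ↔
      ∃ j < c n, En s n z (T j (T k X)) ∧
        ∀ y ∈ A c T s (T j (T k X)), ¬ En s n y (T j (T k X)) := by
    refine exists_congr fun j => and_congr_right fun hj => ?_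
    rw [enB_iff (hN _ (hcl j hj)), hV _ (hcl j hj), hTT j hj]
    refine and_congr_right fun _ => ?_
    refine forall_congr' fun y => forall_congr' fun _ => ?_
    rw [enB_iff (hN _ (hcl j hj)), hTT j hj]
  unfold goodB Good
  rw [ht.hg n hn, ht.hc n hn, Bool.and_eq_true, Bool.and_eq_true, decide_eq_true_iff,
    List.all_eq_true, List.any_eq_true, and_assoc, ← h4]
  refine and_congr_right fun _ => and_congr ?_ ?_
  · constructor
    · intro h e he
      rw [← h1]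
      have h5 := h e (List.mem_range.2 he)
      rw [List.all_eq_true] at h5
      intro j hj
      exact decide_eq_true_iff.1 (h5 j (List.mem_range.2 hj))
    · intro h e he
      have h5 := (h1 e).2 (h e (List.mem_range.1 he))
      rw [List.all_eq_true]
      intro j hj
      exact decide_eq_true_iff.2 (h5 j (List.mem_range.1 hj))
  · constructor
    · rintro ⟨j, hj, h⟩
      rw [Bool.and_eq_true, List.all_eq_true] at h
      refine ⟨j, List.mem_range.1 hj, h.1, fun y hy => ?_⟩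
      have := h.2 y hy
      simpa using this
    · rintro ⟨j, hj, h, h'⟩
      refine ⟨j, List.mem_range.2 hj, ?_⟩
      rw [Bool.and_eq_true, List.all_eq_true]
      refine ⟨h, fun y hy => ?_⟩
      have := h' y hy
      simpa using this

theorem t34_act {T : ℕ → (ℕ → Bool) → ℕ → Bool} (hT : IsAct m c T) {X : ℕ → Bool} {t : TT}
    {d : List Bool} {s n k : ℕ} {σ : List Bool}
    {V : List (List ℕ)} (ht : TOk m c t σ.length) (hs : s ≤ σ.length) (hn : n < s)
    (hk : k < c σ.length)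
    (hN : ∀ k < c σ.length, ∀ i < s, mX d σ k i = T k X i)
    (hV : ∀ k < c σ.length, V.getD k [] = A c T s (T k X)) :
    actB t d σ V s n k = act c T (A c T s) s n (T k X) := by
  classical
  unfold actB act
  congr 1
  funext z
  rw [Bool.eq_iff_iff, decide_eq_true_iff]
  exact goodB_iff hT ht (by omega) hk hN hV

theorem tabB_eq {T : ℕ → (ℕ → Bool) → ℕ → Bool} (hT : IsAct m c T) {X : ℕ → Bool} {t : TT}
    {d σ : List Bool} (ht : TOk m c t σ.length)
    (hN : ∀ k < c σ.length, ∀ i < σ.length, mX d σ k i = T k X i) (s : ℕ) (hs : s ≤ σ.length)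
    (k : ℕ) (hk : k < c σ.length) :
    (tabB t d σ s).getD k [] = A c T s (T k X) := by
  induction s generalizing k with
  | zero => rfl
  | succ s ih =>
    have hV : ∀ k < c σ.length, (tabB t d σ s).getD k [] = A c T s (T k X) :=
      fun k hk => ih (by omega) k hk
    show (stepB t d σ (tabB t d σ s) s).getD k [] =
      A c T s (T k X) ++
        (List.range s).filterMap (fun n => act c T (A c T s) s n (T k X))
    have hk' : k < ct t σ.length := by
      rw [ht.hc _ le_rfl]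
      exact hk
    unfold stepB
    rw [List.getD_eq_getElem?_getD, List.getElem?_map, List.getElem?_range hk', Option.map_some,
      Option.getD_some, hV k hk]
    congr 1
    apply List.filterMap_congr
    intro n hn
    rw [List.mem_range] at hn
    exact t34_act hT ht (by omega) hn hk (fun k hk i hi => hN k hk i (by omega)) hV

end Pool.Agent.H869R3.LF
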